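import Pool.Agent.Q83.Mod.Many

/-!
# Infinitely many projective equivalence classes of nontrivial geproci sets of a fixed type

For every `b ≥ 6` the nontrivial `(4, b)`-geproci sets in complex projective three-space fall into
continuum many projective equivalence classes.

The sets are unions of `D₄` configurations on four fixed skew lines (which depend on a parameter),
of the four points on a transversal of the four lines, and of the four points on the second
transversal.
-/

set_option autoImplicit false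

open MvPolynomial Cardinal
open Pool.Agent.Results.MP_586029_ag.GeprociMatroid
  (V4 V3 P3 imageIdeal IsDegenerate IsGrid ProjectivelyEquivalent)

namespace Pool.Agent.Results.MP_e29873_ag.InfinitelyManyClasses

/-- `Z` is `(a, b)`-geproci (`1 ≤ a ≤ b`): `Z` consists of `a * b` points and for a general point
`P` (outside the zero set of some nonzero polynomial `D`) the image of `Z` under the projection
from `P` to a plane is the complete intersection of two plane curves of degrees `a` and `b`: the
homogeneous ideal of the image is generated by a regular sequence of two forms of these degrees.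
The projection from `P` is given by a linear map `π` from `ℂ⁴` to `ℂ³` whose kernel is the line
`P`. -/
def IsGeprociOfType (Z : Set P3) (a b : ℕ) : Prop :=
  1 ≤ a ∧ a ≤ b ∧ Z.Finite ∧ Z.ncard = a * b ∧ ∃ D : MvPolynomial (Fin 4) ℂ, D ≠ 0 ∧
    ∀ P : V4, eval P D ≠ 0 → ∀ π : V4 →ₗ[ℂ] V3, LinearMap.ker π = Submodule.span ℂ {P} →
      ∃ F G : MvPolynomial (Fin 3) ℂ, F.IsHomogeneous a ∧ G.IsHomogeneous b ∧
        RingTheory.Sequence.IsRegular (MvPolynomial (Fin 3) ℂ) [F, G] ∧
        imageIdeal Z π = Ideal.span {F, G}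

/-- `Z` is a nontrivial `(a, b)`-geproci set: it is not contained in a plane and not a grid. -/
def IsNontrivialGeprociOfType (Z : Set P3) (a b : ℕ) : Prop :=
  IsGeprociOfType Z a b ∧ ¬ IsDegenerate Z ∧ ¬ IsGrid Z

open Pool.Agent.Q83.Mod Pool.Agent.Y744.GP in
/-- **Main result.** For every `b ≥ 6` there are continuum many nontrivial `(4, b)`-geproci sets
which are pairwise not projectively equivalent. -/
theorem result (b : ℕ) (hb : 6 ≤ b) : ∃ 𝒯 : Set (Set P3), #𝒯 = 𝔠 ∧
    (∀ Z ∈ 𝒯, IsNontrivialGeprociOfType Z 4 b) ∧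
    ∀ Z ∈ 𝒯, ∀ Z' ∈ 𝒯, Z ≠ Z' → ¬ ProjectivelyEquivalent Z Z' := by
  obtain ⟨k, m, hk, hm, rfl⟩ : ∃ k m : ℕ, 0 < k ∧ m ≤ 2 ∧ b = (k + 1) * 3 + m :=
    ⟨b / 3 - 1, b % 3, by omega, by omega, by omega⟩
  obtain ⟨w, hw, hwi⟩ := exists_w m hm
  have hcfg : ∀ t : Fin k → ℂ, AlgebraicIndependent ℚ t →
      Cfg (al' (ext0 t) m) (be' (ext0 t) w) (Ga (ext0 t) w) :=
    fun t ht => cfg (good_of_ai ht) hw hwi
  obtain ⟨T, hT, hai, hne⟩ := exists_large' hk (w := w) fun t ht => Zc_finite (hcfg t ht)
  have hinj : Set.InjOn (fun t => W w t) T := by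
    intro t ht t' ht' h
    apply hne t ht t' ht'
    simp only at h
    rw [h]
    exact pe_refl _
  refine ⟨(fun t => W w t) '' T, ?_, ?_, ?_⟩
  · rw [mk_image_eq_of_injOn _ _ hinj, hT]
  · rintro _ ⟨t, ht, rfl⟩
    have hc := hcfg t (hai t ht)
    refine ⟨⟨by norm_num, by omega, Zc_finite hc, Zc_ncard hc, DC _ _ _, DC_ne_zero hc, ?_⟩, ?_, ?_⟩
    · intro P hP π hπ
      exact geproci_C (by omega) hc hP hπ
    · apply not_isDegenerate_of
      intro i a
      exact mem_W w t i 0 a
    · apply not_isGrid_of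
      intro i a
      exact mem_W w t i 0 a
  · rintro _ ⟨t, ht, rfl⟩ _ ⟨t', ht', rfl⟩ hZ hpe
    exact hZ (by rw [hne t ht t' ht' hpe])

end Pool.Agent.Results.MP_e29873_ag.InfinitelyManyClasses
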